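import Pool.Agent.MP_e46b50_co.H93.Tab

set_option autoImplicit false

namespace Pool.Agent.MP_e46b50_co.H93

variable {β : Type} [DecidableEq β] (Γ : SimpleGraph β)

/-- a path from `a` to `b` through exactly the vertices of `S` -/
def Seg (a b : β) (S : Finset β) : Prop := Pth Γ (S : Set β) a b S.card

/-- `S` is covered by disjoint paths with the listed pairs of ends -/
def Cov : List (β × β) → Finset β → Prop
  | [], S => S = ∅
  | e :: M, S => ∃ T S', Seg Γ e.1 e.2 T ∧ Cov M S' ∧ Disjoint T S' ∧ S = T ∪ S'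

def ends : List (β × β) → Multiset β
  | [] => 0
  | e :: M => e.1 ::ₘ e.2 ::ₘ ends M

def Cv (E : Multiset β) (S : Finset β) : Prop := ∃ M, Cov Γ M S ∧ ends M = E

variable {Γ}

omit [DecidableEq β] in
theorem Seg.single (a : β) : Seg Γ a a {a} := by
  unfold Seg
  rw [Finset.card_singleton]
  exact Pth.single (by simp)

theorem Seg.join {a b c d : β} {S T : Finset β} (h : Seg Γ a b S) (h' : Seg Γ c d T)
    (hadj : Γ.Adj b c) (hd : Disjoint S T) : Seg Γ a d (S ∪ T) := by
  unfold Seg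
  rw [Finset.card_union_of_disjoint hd]
  exact Pth.join h h' hadj (fun y h1 h2 => Finset.disjoint_left.mp hd h1 h2) (by simp) (by simp)

theorem Cov.swap {a b : β} {M : List (β × β)} {S : Finset β} (h : Cov Γ ((a, b) :: M) S) :
    Cov Γ ((b, a) :: M) S := by
  obtain ⟨T, S', h1, h2⟩ := h
  exact ⟨T, S', Pth.rev h1, h2⟩

theorem Cov.comm {e e' : β × β} {M : List (β × β)} {S : Finset β} (h : Cov Γ (e :: e' :: M) S) :
    Cov Γ (e' :: e :: M) S := by
  obtain ⟨T, S', h1, ⟨T', S'', h2, h3, h4, rfl⟩, h5, rfl⟩ := h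
  rw [Finset.disjoint_union_right] at h5
  exact ⟨T', T ∪ S'', h2, ⟨T, S'', h1, h3, h5.2, rfl⟩,
    Finset.disjoint_union_right.mpr ⟨h5.1.symm, h4⟩, Finset.union_left_comm _ _ _⟩

theorem Cov.pick {x : β} : ∀ {M : List (β × β)}, x ∈ ends M → ∃ u M', ends M = u ::ₘ x ::ₘ ends M' ∧
    ∀ S, Cov Γ M S → Cov Γ ((u, x) :: M') S
  | [], h => by simp [ends] at h
  | (a, b) :: M, h => by
    simp only [ends, Multiset.mem_cons] at h
    rcases h with rfl | rfl | h
    · exact ⟨b, M, Multiset.cons_swap _ _ _, fun S h => h.swap⟩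
    · exact ⟨a, M, rfl, fun S h => h⟩
    · obtain ⟨u, M', h1, h2⟩ := Cov.pick h
      refine ⟨u, (a, b) :: M', ?_, fun S hS => ?_⟩
      · simp only [ends, h1, ← Multiset.singleton_add]
        abel
      · obtain ⟨T, S', h3, h4, h5⟩ := hS
        exact Cov.comm ⟨T, S', h3, h2 S' h4, h5⟩

theorem Cov.mem : ∀ {M : List (β × β)} {S : Finset β}, Cov Γ M S → ∀ x ∈ ends M, x ∈ S
  | [], _, _, x, hx => by simp [ends] at hx
  | (a, b) :: M, S, h, x, hx => by
    obtain ⟨T, S', h1, h2, -, rfl⟩ := h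
    simp only [ends, Multiset.mem_cons] at hx
    rcases hx with rfl | rfl | hx
    · exact Finset.mem_union_left _ (Pth.left h1)
    · exact Finset.mem_union_left _ (Pth.right h1)
    · exact Finset.mem_union_right _ (Cov.mem h2 x hx)

theorem Cov.merge {a b c d : β} {M : List (β × β)} {S : Finset β}
    (h : Cov Γ ((a, b) :: (c, d) :: M) S) (hadj : Γ.Adj b d) : Cov Γ ((a, c) :: M) S := by
  obtain ⟨T, S', h1, ⟨T', S'', h2, h3, h4, rfl⟩, h5, rfl⟩ := h
  rw [Finset.disjoint_union_right] at h5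
  exact ⟨T ∪ T', S'', Seg.join h1 (Pth.rev h2) hadj h5.1, h3,
    Finset.disjoint_union_left.mpr ⟨h5.2, h4⟩, (Finset.union_assoc _ _ _).symm⟩

theorem Cov.new {y : β} {M : List (β × β)} {S : Finset β} (h : Cov Γ M S) (hy : y ∉ S) :
    Cov Γ ((y, y) :: M) (insert y S) :=
  ⟨{y}, S, Seg.single y, h, Finset.disjoint_singleton_left.mpr hy, Finset.insert_eq _ _⟩

theorem Cov.ext {u x y : β} {M : List (β × β)} {S : Finset β} (h : Cov Γ ((u, x) :: M) S)
    (hadj : Γ.Adj x y) (hy : y ∉ S) : Cov Γ ((u, y) :: M) (insert y S) :=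
  (h.new hy).comm.merge hadj

theorem Cv.mem {E : Multiset β} {S : Finset β} (h : Cv Γ E S) {x : β} (hx : x ∈ E) : x ∈ S := by
  obtain ⟨M, h1, rfl⟩ := h
  exact h1.mem x hx

theorem Cv.pick {x : β} {E : Multiset β} {S : Finset β} (h : Cv Γ (x ::ₘ E) S) :
    ∃ u M, Cov Γ ((u, x) :: M) S ∧ u ::ₘ ends M = E := by
  obtain ⟨M, h1, h2⟩ := h
  obtain ⟨u, M', h3, h4⟩ := Cov.pick (Γ := Γ) (x := x) (M := M) (by rw [h2]; simp)
  refine ⟨u, M', h4 S h1, ?_⟩
  rw [h2, Multiset.cons_swap] at h3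
  exact ((Multiset.cons_inj_right _).mp h3).symm

theorem Cv.of {u x : β} {M : List (β × β)} {S : Finset β} (h : Cov Γ ((u, x) :: M) S) :
    Cv Γ (x ::ₘ u ::ₘ ends M) S := ⟨_, h.swap, rfl⟩

theorem Cv.new {y : β} {E : Multiset β} {S : Finset β} (h : Cv Γ E S) (hy : y ∉ S) :
    Cv Γ (y ::ₘ y ::ₘ E) (insert y S) := by
  obtain ⟨M, h1, rfl⟩ := h
  exact ⟨_, h1.new hy, rfl⟩

theorem Cv.ext {x y : β} {E : Multiset β} {S : Finset β} (h : Cv Γ (x ::ₘ E) S)
    (hadj : Γ.Adj x y) (hy : y ∉ S) : Cv Γ (y ::ₘ E) (insert y S) := by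
  obtain ⟨u, M, h1, rfl⟩ := h.pick
  exact Cv.of (h1.ext hadj hy)

theorem Cv.split {x y z : β} {E : Multiset β} {S : Finset β} (h : Cv Γ (x ::ₘ y ::ₘ z ::ₘ E) S)
    (hyz : y ≠ z) :
    (∃ u v M, Cov Γ ((u, x) :: (v, y) :: M) S ∧ u ::ₘ v ::ₘ ends M = z ::ₘ E) ∨
      ∃ u v M, Cov Γ ((u, x) :: (v, z) :: M) S ∧ u ::ₘ v ::ₘ ends M = y ::ₘ E := by
  have key : ∀ {y z : β} {u : β} {M : List (β × β)}, Cov Γ ((u, x) :: M) S → u ≠ y →
      u ::ₘ ends M = y ::ₘ z ::ₘ E →
      ∃ u v M, Cov Γ ((u, x) :: (v, y) :: M) S ∧ u ::ₘ v ::ₘ ends M = z ::ₘ E := by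
    intro y z u M h1 hu h2
    have hy : y ∈ ends M := by
      have : y ∈ u ::ₘ ends M := by rw [h2]; simp
      exact (Multiset.mem_cons.mp this).resolve_left hu.symm
    obtain ⟨v, M', h3, h4⟩ := Cov.pick (Γ := Γ) hy
    obtain ⟨T, S', h5, h6, h7⟩ := h1
    refine ⟨u, v, M', ⟨T, S', h5, h4 S' h6, h7⟩, ?_⟩
    rw [h3, Multiset.cons_swap v, Multiset.cons_swap u] at h2
    exact (Multiset.cons_inj_right _).mp h2
  obtain ⟨u, M, h1, h2⟩ := h.pick
  by_cases hu : u = y
  · exact Or.inr (key h1 (hu ▸ hyz) (h2.trans (Multiset.cons_swap _ _ _)))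
  · exact Or.inl (key h1 hu h2)

theorem Cv.zero {S : Finset β} (h : Cv Γ 0 S) : S = ∅ := by
  obtain ⟨M, h1, h2⟩ := h
  cases M with
  | nil => exact h1
  | cons e M => simp [ends] at h2

theorem Cv.two {x y : β} {S : Finset β} (h : Cv Γ (x ::ₘ y ::ₘ 0) S) : Seg Γ y x S := by
  obtain ⟨u, M, h1, h2⟩ := h.pick
  have h3 : ends M = 0 := by
    have := congrArg Multiset.card h2
    simpa using this
  rw [h3] at h2
  obtain rfl : u = y := by simpa using h2
  obtain ⟨T, S', h4, h5, -, rfl⟩ := h1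
  rw [Cv.zero ⟨M, h5, h3⟩, Finset.union_empty]
  exact h4

theorem Cv.even {E : Multiset β} {S : Finset β} (h : Cv Γ E S) : Even E.card := by
  obtain ⟨M, -, rfl⟩ := h
  induction M with
  | nil => simp [ends]
  | cons e M ih =>
    simp only [ends, Multiset.card_cons, add_assoc]
    exact ih.add (by decide)

section Piece

variable {f : Fin 8 → β} (hf : Function.Injective f)
  (hadj : ∀ i j, adj8 i j = true → Γ.Adj (f i) (f j))

include hf hadj in
theorem Cov.extL {u : β} {M : List (β × β)} : ∀ (l : List (Fin 8)) (s : Fin 8) (S : Finset β),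
    Cov Γ ((u, f s) :: M) S → chn s l = true → l.Nodup → (∀ i ∈ l, f i ∉ S) →
    Cov Γ ((u, f (l.getLastD s)) :: M) (S ∪ l.toFinset.image f)
  | [], s, S, h, _, _, _ => by simpa using h
  | a :: l, s, S, h, h1, h2, h3 => by
    simp only [chn, Bool.and_eq_true] at h1
    rw [List.nodup_cons] at h2
    have := Cov.extL l a (insert (f a) S) (h.ext (hadj _ _ h1.1) (h3 a (by simp))) h1.2 h2.2 (by
      intro i hi hh
      rcases Finset.mem_insert.mp hh with h4 | h4
      · exact h2.1 (hf h4 ▸ hi)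
      · exact h3 i (by simp [hi]) h4)
    rw [List.getLastD_cons]
    convert this using 1
    ext x
    simp only [List.toFinset_cons, Finset.image_insert, Finset.mem_union, Finset.mem_insert]
    tauto

include hf hadj in
theorem Cv.extL {E : Multiset β} {S : Finset β} {s : Fin 8} (h : Cv Γ (f s ::ₘ E) S)
    {l : List (Fin 8)} (h1 : chn s l = true) (h2 : l.Nodup) (h3 : ∀ i ∈ l, f i ∉ S) :
    Cv Γ (f (l.getLastD s) ::ₘ E) (S ∪ l.toFinset.image f) := by
  obtain ⟨u, M, h4, rfl⟩ := h.pick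
  exact Cv.of (Cov.extL hf hadj l s S h4 h1 h2 h3)

theorem fill {S U : Finset β} (h1 : S ⊆ U) (h2 : ∀ i, f i ∈ U)
    (h3 : ∀ x ∈ U, x ∈ S ∨ ∃ i, f i = x) : U = S ∪ Finset.univ.image f := by
  ext x
  simp only [Finset.mem_union, Finset.mem_image, Finset.mem_univ, true_and]
  constructor
  · exact h3 x
  · rintro (h | ⟨i, rfl⟩)
    · exact h1 h
    · exact h2 i

include hf hadj in
/-- a path through the whole piece, stopping just before `t` -/
theorem Cv.ham {E : Multiset β} {S : Finset β} {s t : Fin 8} (h : Cv Γ (f s ::ₘ E) S) (hst : s ≠ t)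
    (hS : ∀ i, f i ∈ S → i = s ∨ i = t) :
    ∃ r U, Cv Γ (f r ::ₘ E) U ∧ Γ.Adj (f r) (f t) ∧ (f t ∉ S → f t ∉ U) ∧
      insert (f t) U = S ∪ Finset.univ.image f ∧ S ⊆ U := by
  obtain ⟨a1, a2, a3, a4⟩ := p4 s t hst
  simp only [List.nodup_cons, List.mem_cons, not_or] at a3 a4
  have hs := h.mem (Multiset.mem_cons_self _ _)
  refine ⟨_, _, h.extL hf hadj a1 a3.2.2 ?_, hadj _ _ a2, ?_, ?_, Finset.subset_union_left⟩
  · intro i hi hh
    rcases hS i hh with rfl | rfl
    · exact a3.1.2 hi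
    · exact a3.2.1 hi
  · intro h1 h2
    simp only [Finset.mem_union, Finset.mem_image, List.mem_toFinset] at h2
    rcases h2 with h2 | ⟨i, hi, h2⟩
    · exact h1 h2
    · exact a3.2.1 (hf h2 ▸ hi)
  · refine fill (fun x hx => by simp [hx]) (fun i => ?_) fun x hx => ?_
    · simp only [Finset.mem_insert, Finset.mem_union, Finset.mem_image, List.mem_toFinset]
      rcases a4 i with rfl | rfl | hi
      · exact Or.inr (Or.inl hs)
      · exact Or.inl rfl
      · exact Or.inr (Or.inr ⟨i, hi, rfl⟩)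
    · simp only [Finset.mem_insert, Finset.mem_union, Finset.mem_image, List.mem_toFinset] at hx
      rcases hx with rfl | hx | ⟨i, -, rfl⟩
      · exact Or.inr ⟨_, rfl⟩
      · exact Or.inl hx
      · exact Or.inr ⟨_, rfl⟩

include hf hadj in
theorem Cv.one {E : Multiset β} {S : Finset β} {s t : Fin 8} (h : Cv Γ (f s ::ₘ E) S) (hst : s ≠ t)
    (hS : ∀ i, f i ∈ S → i = s) : Cv Γ (f t ::ₘ E) (S ∪ Finset.univ.image f) := by
  obtain ⟨r, U, h1, h2, h3, h4, -⟩ := h.ham hf hadj hst fun i hi => Or.inl (hS i hi)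
  rw [← h4]
  exact h1.ext h2 (h3 fun hh => hst (hS t hh).symm)

include hf hadj in
theorem Cov.three {a b : β} {M : List (β × β)} {E : Multiset β} {S : Finset β} {s t u : Fin 8}
    (z : Fin 8) (h : Cov Γ ((a, f s) :: (b, f t) :: M) S) (hE : a ::ₘ b ::ₘ ends M = f u ::ₘ E)
    (h1 : s ≠ t) (h2 : s ≠ u) (h3 : t ≠ u) (hS : ∀ i, f i ∈ S → i = s ∨ i = t ∨ i = u) :
    ∃ y, y ≠ z ∧ Cv Γ (f y ::ₘ E) (S ∪ Finset.univ.image f) ∧ y ≠ t := by
  obtain ⟨l₁, l₂, ⟨a1, a2, a3, a4, a5⟩, a6⟩ := p3 s t u z h1 h2 h3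
  simp only [List.nodup_cons, List.mem_cons, not_or, List.mem_append, List.nodup_append] at a4 a5
  obtain ⟨⟨-, -, s1, s2⟩, ⟨-, t1, t2⟩, ⟨u1, u2⟩, n1, n2, n3⟩ := a4
  have m1 : f s ∈ S := h.mem _ (by simp [ends])
  have m2 : f t ∈ S := h.mem _ (by simp [ends])
  have m3 : f u ∈ S := h.mem _ (by
    have : f u ∈ a ::ₘ b ::ₘ ends M := by rw [hE]; simp
    simp only [ends, Multiset.mem_cons] at this ⊢
    tauto)
  have c1 := (Cov.extL hf hadj l₁ s S h a1 n1 (by
    intro i hi hh
    rcases hS i hh with rfl | rfl | rfl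
    exacts [s1 hi, t1 hi, u1 hi])).merge (hadj _ _ a2)
  have c2 : Cv Γ (f u ::ₘ E) (S ∪ l₁.toFinset.image f) := ⟨_, c1, hE⟩
  have c3 := c2.extL hf hadj a3 n2 (by
    intro i hi hh
    simp only [Finset.mem_union, Finset.mem_image, List.mem_toFinset] at hh
    rcases hh with hh | ⟨j, hj, hh⟩
    · rcases hS i hh with rfl | rfl | rfl
      exacts [s2 hi, t2 hi, u2 hi]
    · exact n3 j hj i hi (hf hh))
  refine ⟨_, a6, ?_, fun hh => ?_⟩
  swap
  · have := List.getLastD_mem_cons (l := l₂) (a := u)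
    rw [hh] at this
    exact (List.mem_cons.mp this).elim h3 t2
  rw [← fill (f := f) (S := S) (U := S ∪ l₁.toFinset.image f ∪ l₂.toFinset.image f)
    (fun x hx => by simp [hx]) (fun i => ?_) fun x hx => ?_]
  · exact c3
  · simp only [Finset.mem_union, Finset.mem_image, List.mem_toFinset]
    rcases a5 i with rfl | rfl | rfl | hi | hi
    exacts [Or.inl (Or.inl m1), Or.inl (Or.inl m2), Or.inl (Or.inl m3),
      Or.inl (Or.inr ⟨i, hi, rfl⟩), Or.inr ⟨i, hi, rfl⟩]
  · simp only [Finset.mem_union, Finset.mem_image, List.mem_toFinset] at hx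
    rcases hx with (hx | ⟨i, -, rfl⟩) | ⟨i, -, rfl⟩
    exacts [Or.inl hx, Or.inr ⟨_, rfl⟩, Or.inr ⟨_, rfl⟩]

theorem avoid : ∀ a b c : Fin 8, ∃ t, t ≠ a ∧ t ≠ b ∧ t ≠ c := by decide

include hf hadj in
/-- covering a whole piece with at most three terminals -/
theorem Cv.piece {E : Multiset β} {S : Finset β} (z : Fin 8) (ts : Multiset (Fin 8))
    (hn : ts.Nodup) (hc : ts.card ≤ 3) (h : Cv Γ (ts.map f + E) S) (hS : ∀ i, f i ∈ S → i ∈ ts) :
    (∃ y, y ≠ z ∧ Cv Γ (f y ::ₘ E) (S ∪ Finset.univ.image f)) ∨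
      ∃ y y', y ≠ z ∧ y' ≠ z ∧ y ≠ y' ∧ Cv Γ (f y ::ₘ f y' ::ₘ E) (S ∪ Finset.univ.image f) := by
  have hcases : ts.card = 0 ∨ ts.card = 1 ∨ ts.card = 2 ∨ ts.card = 3 := by omega
  rcases hcases with h0 | h0 | h0 | h0
  · obtain rfl := Multiset.card_eq_zero.mp h0
    obtain ⟨y, hy, -⟩ := avoid z z z
    obtain ⟨y', hy', hy'', -⟩ := avoid z y y
    simp only [Multiset.map_zero, zero_add] at h
    have c := (h.new (y := f y) fun hh => by simpa using hS y hh).one hf hadj hy''.symm (by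
      intro i hi
      rcases Finset.mem_insert.mp hi with h1 | h1
      · exact hf h1
      · simpa using hS i h1)
    refine Or.inr ⟨y', y, hy', hy, hy'', ?_⟩
    convert c using 1
    ext x
    simp only [Finset.mem_union, Finset.mem_image, Finset.mem_univ, true_and, Finset.mem_insert]
    constructor
    · tauto
    · rintro ((rfl | h1) | h1)
      exacts [Or.inr ⟨_, rfl⟩, Or.inl h1, Or.inr h1]
  · obtain ⟨s, rfl⟩ := Multiset.card_eq_one.mp h0
    obtain ⟨y, hy, hy', -⟩ := avoid z s s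
    simp only [Multiset.map_singleton, Multiset.singleton_add] at h
    exact Or.inl ⟨y, hy, h.one hf hadj hy'.symm fun i hi => by simpa using hS i hi⟩
  · obtain ⟨s, u, rfl⟩ := Multiset.card_eq_two.mp h0
    have hsu : s ≠ u := by simpa using hn
    obtain ⟨t, ht, ht', ht''⟩ := avoid z s u
    simp only [Multiset.insert_eq_cons, Multiset.map_cons, Multiset.map_singleton,
      Multiset.cons_add, Multiset.singleton_add] at h
    obtain ⟨a, M, c1, c2⟩ := h.pick
    have htS : f t ∉ S := fun hh => by simpa [ht', ht''] using hS t hh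
    obtain ⟨y, hy, c3, hyt⟩ := Cov.three hf hadj (E := f t ::ₘ E) (u := u) z (c1.new htS).comm
      (by rw [Multiset.cons_swap, c2, Multiset.cons_swap]) ht'.symm hsu ht'' (by
        intro i hi
        rcases Finset.mem_insert.mp hi with h1 | h1
        · exact Or.inr (Or.inl (hf h1))
        · have := hS i h1
          simp only [Multiset.insert_eq_cons, Multiset.mem_cons, Multiset.mem_singleton] at this
          tauto)
    refine Or.inr ⟨y, t, hy, ht, hyt, ?_⟩
    convert c3 using 1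
    ext x
    simp only [Finset.mem_union, Finset.mem_image, Finset.mem_univ, true_and, Finset.mem_insert]
    constructor
    · tauto
    · rintro ((rfl | h1) | h1)
      exacts [Or.inr ⟨_, rfl⟩, Or.inl h1, Or.inr h1]
  · obtain ⟨s, t, u, rfl⟩ := Multiset.card_eq_three.mp h0
    simp only [Multiset.insert_eq_cons, Multiset.nodup_cons, Multiset.mem_cons,
      Multiset.mem_singleton, not_or] at hn hS
    simp only [Multiset.insert_eq_cons, Multiset.map_cons, Multiset.map_singleton,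
      Multiset.cons_add, Multiset.singleton_add] at h
    rcases h.split (fun hh => hn.2.1 (hf hh)) with ⟨a, b, M, c1, c2⟩ | ⟨a, b, M, c1, c2⟩
    · obtain ⟨y, hy, c3, -⟩ := Cov.three hf hadj z c1 c2 hn.1.1 hn.1.2 hn.2.1 hS
      exact Or.inl ⟨y, hy, c3⟩
    · obtain ⟨y, hy, c3, -⟩ := Cov.three hf hadj z c1 c2 hn.1.2 hn.1.1 (Ne.symm hn.2.1)
        fun i hi => by
          have := hS i hi
          tauto
      exact Or.inl ⟨y, hy, c3⟩

include hf hadj in
/-- closing up in the last piece -/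
theorem Cv.close {S : Finset β} (ts : Multiset (Fin 8)) (hn : ts.Nodup) (hc : ts.card ≤ 3)
    (h : Cv Γ (ts.map f) S) (hS : ∀ i, f i ∈ S → i ∈ ts) :
    ∃ x y, Γ.Adj y x ∧ Seg Γ x y (S ∪ Finset.univ.image f) := by
  have he := h.even
  rw [Multiset.card_map, Nat.even_iff] at he
  have hcases : ts.card = 0 ∨ ts.card = 2 := by omega
  rcases hcases with h0 | h0
  · obtain rfl := Multiset.card_eq_zero.mp h0
    have c := ((h.new (y := f 0) fun hh => by simpa using hS 0 hh).one hf hadj (t := 1) (by decide)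
      (by
        intro i hi
        rcases Finset.mem_insert.mp hi with h1 | h1
        · exact hf h1
        · simpa using hS i h1)).two
    refine ⟨_, _, hadj 1 0 (by decide), ?_⟩
    convert c using 1
    ext x
    simp only [Finset.mem_union, Finset.mem_image, Finset.mem_univ, true_and, Finset.mem_insert]
    constructor
    · tauto
    · rintro ((rfl | h1) | h1)
      exacts [Or.inr ⟨_, rfl⟩, Or.inl h1, Or.inr h1]
  · obtain ⟨s, t, rfl⟩ := Multiset.card_eq_two.mp h0
    have hst : s ≠ t := by simpa using hn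
    simp only [Multiset.insert_eq_cons, Multiset.map_cons, Multiset.map_singleton] at h
    obtain ⟨r, U, h1, h2, -, h4, h5⟩ := h.ham hf hadj hst fun i hi => by simpa using hS i hi
    rw [Finset.insert_eq_of_mem (h1.mem (by simp))] at h4
    exact ⟨_, _, h2, h4 ▸ Cv.two h1⟩

end Piece

section Sweep

variable {ι : Type} [DecidableEq ι] {Γ : SimpleGraph (ι × Fin 8)}
  (hadj : ∀ T i j, adj8 i j = true → Γ.Adj (T, i) (T, j))

/-- all points over the listed nodes -/
def pcs (P : List ι) : Finset (ι × Fin 8) := P.toFinset ×ˢ Finset.univ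

theorem mem_pcs {P : List ι} {x : ι × Fin 8} : x ∈ pcs P ↔ x.1 ∈ P := by simp [pcs]

theorem split_ends (E : Multiset (ι × Fin 8)) (D : ι) :
    E = ((E.filter fun e => e.1 = D).map Prod.snd).map (fun i => (D, i)) +
      E.filter fun e => ¬ e.1 = D := by
  rw [Multiset.map_map, Multiset.map_congr rfl (g := id), Multiset.map_id, Multiset.filter_add_not]
  rintro ⟨T, i⟩ he
  obtain rfl : T = D := (Multiset.mem_filter.mp he).2
  rfl

theorem fc_pos (T : ι) (y : Fin 8) (E : Multiset (ι × Fin 8)) :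
    (((T, y) ::ₘ E).filter fun e => e.1 = T).card = (E.filter fun e => e.1 = T).card + 1 := by
  rw [Multiset.filter_cons_of_pos (p := fun e : ι × Fin 8 => e.1 = T) _ rfl, Multiset.card_cons]

theorem fc_neg {T T' : ι} (h : ¬ T' = T) (y : Fin 8) (E : Multiset (ι × Fin 8)) :
    (((T', y) ::ₘ E).filter fun e => e.1 = T) = E.filter fun e => e.1 = T :=
  Multiset.filter_cons_of_neg (p := fun e : ι × Fin 8 => e.1 = T) _ h

include hadj in
theorem sweep : ∀ (P : List ι) (D : ι) (E : Multiset (ι × Fin 8)) (S : Finset (ι × Fin 8)),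
    List.IsChain (fun T T' => ∀ i, Γ.Adj (T, i) (T', i)) (D :: P) → (D :: P).Nodup → Cv Γ E S →
    E.Nodup → (∀ e ∈ E, e.1 ∈ D :: P) → (∀ x ∈ S, x.1 ∈ D :: P → x ∈ E) →
    (E.filter fun e => e.1 = D).card ≤ 3 → (∀ T ∈ P, (E.filter fun e => e.1 = T).card ≤ 1) →
    ∃ x y, Γ.Adj y x ∧ Seg Γ x y (S ∪ pcs (D :: P)) := by
  intro P
  have hinj : ∀ D : ι, Function.Injective fun i : Fin 8 => (D, i) :=
    fun D i j h => (Prod.ext_iff.mp h).2
  have hnd : ∀ (D : ι) (E : Multiset (ι × Fin 8)), E.Nodup →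
      ((E.filter fun e => e.1 = D).map Prod.snd).Nodup := by
    intro D E hE
    refine Multiset.Nodup.map_on (fun x hx y hy h => Prod.ext ?_ h) (hE.filter _)
    rw [(Multiset.mem_filter.mp hx).2, (Multiset.mem_filter.mp hy).2]
  induction P with
  | nil =>
    intro D E S _ _ h1 h2 h3 h4 h5 _
    have e1 := split_ends E D
    have e0 : (E.filter fun e : ι × Fin 8 => ¬ e.1 = D) = 0 :=
      Multiset.filter_eq_nil.mpr fun e he => by simpa using h3 e he
    rw [e0, add_zero] at e1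
    have c := Cv.close (hinj D) (hadj D) _ (hnd D E h2) (by rwa [Multiset.card_map]) (e1 ▸ h1)
      fun i hi => Multiset.mem_map.mpr ⟨(D, i), Multiset.mem_filter.mpr
        ⟨h4 _ hi (by simp), rfl⟩, rfl⟩
    convert c using 6
    ext ⟨T, i⟩
    simp [mem_pcs, eq_comm]
  | cons D' P ih =>
    intro D E S hc hn h1 h2 h3 h4 h5 h6
    rw [List.isChain_cons_cons] at hc
    rw [List.nodup_cons] at hn
    have hDD : D' ≠ D := fun h => hn.1 (by simp [h])
    obtain ⟨z, hz⟩ : ∃ z, ∀ i, (D', i) ∈ E → i = z := by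
      by_cases hex : ∃ z, (D', z) ∈ E
      · obtain ⟨z, hz⟩ := hex
        refine ⟨z, fun i hi => ?_⟩
        have h7 := h6 D' (by simp)
        rw [← Multiset.toFinset_card_of_nodup (h2.filter _), Finset.card_le_one] at h7
        exact hinj D' (h7 _ (by simpa using hi) _ (by simpa using hz))
      · exact ⟨0, fun i hi => absurd ⟨i, hi⟩ hex⟩
    set E' := E.filter fun e => ¬ e.1 = D with hE'
    set S' := S ∪ Finset.univ.image fun i : Fin 8 => (D, i) with hS'
    have f1 : ∀ y, y ≠ z → (D', y) ∉ S' := by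
      intro y hy hh
      rcases Finset.mem_union.mp hh with h7 | h7
      · exact hy (hz y (h4 _ h7 (by simp)))
      · simp only [Finset.mem_image, Finset.mem_univ, true_and, Prod.mk.injEq] at h7
        obtain ⟨_, h7, -⟩ := h7
        exact hDD h7.symm
    have f2 : ∀ y, y ≠ z → (D', y) ∉ E' := fun y hy hh =>
      hy (hz y (Multiset.mem_filter.mp hh).1)
    have f3 : E'.Nodup := h2.filter _
    have f4 : ∀ e ∈ E', e.1 ∈ D' :: P := fun e he =>
      (List.mem_cons.mp (h3 e (Multiset.mem_filter.mp he).1)).resolve_left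
        (Multiset.mem_filter.mp he).2
    have f5 : ∀ x ∈ S', x.1 ∈ D' :: P → x ∈ E' := by
      intro x hx hx'
      have hxD : ¬ x.1 = D := fun h => hn.1 (h ▸ hx')
      rcases Finset.mem_union.mp hx with h7 | h7
      · exact Multiset.mem_filter.mpr ⟨h4 x h7 (List.mem_cons_of_mem _ hx'), hxD⟩
      · obtain ⟨i, -, rfl⟩ := Finset.mem_image.mp h7
        exact absurd rfl hxD
    have f6 : ∀ T ∈ D' :: P, (E'.filter fun e => e.1 = T).card ≤ 1 := fun T hT =>
      (Multiset.card_le_card (Multiset.filter_le_filter _ (Multiset.filter_le _ _))).trans (h6 T hT)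
    have f7 : ∀ T ∈ P, ¬ D' = T := fun T hT h => (List.nodup_cons.mp hn.2).1 (h ▸ hT)
    have f8 : ∀ U : Finset (ι × Fin 8), S' ⊆ U → (∀ x ∈ U, x ∈ S' ∨ x.1 = D') →
        U ∪ pcs (D' :: P) = S ∪ pcs (D :: D' :: P) := by
      intro U hU hU'
      ext ⟨T, i⟩
      have h7 := hU' (T, i)
      have h8 := @hU (T, i)
      simp only [hS', Finset.mem_union, mem_pcs, List.mem_cons, Finset.mem_image, Finset.mem_univ,
        true_and, Prod.mk.injEq, exists_eq_right] at h7 h8 ⊢
      tauto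
    have c := Cv.piece (hinj D) (hadj D) z _ (hnd D E h2) (by rwa [Multiset.card_map])
      (split_ends E D ▸ h1) fun i hi => Multiset.mem_map.mpr ⟨(D, i), Multiset.mem_filter.mpr
        ⟨h4 _ hi (by simp), rfl⟩, rfl⟩
    rcases c with ⟨y, hy, c⟩ | ⟨y, y', hy, hy', hyy, c⟩
    · have c1 := c.ext (hc.1 y) (f1 y hy)
      rw [← f8 (insert (D', y) S') (Finset.subset_insert _ _) (by
        intro x hx
        rcases Finset.mem_insert.mp hx with rfl | hx
        exacts [Or.inr rfl, Or.inl hx])]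
      refine ih D' _ _ hc.2 hn.2 c1 (Multiset.nodup_cons.mpr ⟨f2 y hy, f3⟩) ?_ ?_ ?_ ?_
      · intro e he
        rcases Multiset.mem_cons.mp he with rfl | he
        exacts [by simp, f4 e he]
      · intro x hx hx'
        rcases Finset.mem_insert.mp hx with rfl | hx
        exacts [by simp, Multiset.mem_cons_of_mem (f5 x hx hx')]
      · have := f6 D' (by simp)
        rw [fc_pos, ← hE']
        omega
      · intro T hT
        rw [fc_neg (f7 T hT)]
        exact f6 T (by simp [hT])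
    · have c1 := c.ext (hc.1 y) (f1 y hy)
      rw [Multiset.cons_swap] at c1
      have hne : (D', y') ≠ (D', y) := fun h => hyy (hinj D' h).symm
      have c2 := c1.ext (hc.1 y') (fun hh => (Finset.mem_insert.mp hh).elim hne (f1 y' hy'))
      rw [← f8 (insert (D', y') (insert (D', y) S'))
        ((Finset.subset_insert _ _).trans (Finset.subset_insert _ _)) (by
        intro x hx
        simp only [Finset.mem_insert] at hx
        rcases hx with rfl | rfl | hx
        exacts [Or.inr rfl, Or.inr rfl, Or.inl hx])]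
      refine ih D' _ _ hc.2 hn.2 c2 ?_ ?_ ?_ ?_ ?_
      · simp only [Multiset.nodup_cons, Multiset.mem_cons, not_or]
        exact ⟨⟨hne, f2 y' hy'⟩, f2 y hy, f3⟩
      · intro e he
        simp only [Multiset.mem_cons] at he
        rcases he with rfl | rfl | he
        exacts [by simp, by simp, f4 e he]
      · intro x hx hx'
        simp only [Finset.mem_insert] at hx
        rcases hx with rfl | rfl | hx
        exacts [by simp, by simp,
          Multiset.mem_cons_of_mem (Multiset.mem_cons_of_mem (f5 x hx hx'))]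
      · have := f6 D' (by simp)
        rw [fc_pos, fc_pos, ← hE']
        omega
      · intro T hT
        rw [fc_neg (f7 T hT), fc_neg (f7 T hT)]
        exact f6 T (by simp [hT])

def sn (x : Fin 8) : ℕ → List (Fin 8)
  | 0 => []
  | 1 => if x = 1 then [2] else [1]
  | 2 => if x = 1 then [0, 2] else [0, 1]
  | 3 => if x = 1 then [5, 6, 2] else [6, 5, 1]
  | 4 => if x = 1 then [0, 4, 6, 2] else [0, 4, 5, 1]
  | 5 => if x = 1 then [0, 4, 5, 6, 2] else [0, 4, 6, 5, 1]
  | _ => if x = 1 then [0, 4, 5, 7, 6, 2] else [0, 4, 6, 7, 5, 1]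

theorem sn_ok : ∀ x : Fin 8, x = 1 ∨ x = 2 → ∀ j : Fin 7, chn x (sn x j) = true ∧
    (sn x j).Nodup ∧ x ∉ sn x j ∧ 3 ∉ sn x j ∧ (sn x j).toFinset.card = j ∧
    ((sn x j).getLastD x = 1 ∨ (sn x j).getLastD x = 2) := by decide

include hadj in
theorem snake_step (D : ι) {x : Fin 8} (hx : x = 1 ∨ x = 2) {S : Finset (ι × Fin 8)}
    (h : Cv Γ ((D, x) ::ₘ (D, 3) ::ₘ 0) S) (hS : ∀ i, (D, i) ∈ S → i = x ∨ i = 3) (j : ℕ)
    (hj : j < 7) : ∃ x' U, (x' = 1 ∨ x' = 2) ∧ Cv Γ ((D, x') ::ₘ (D, 3) ::ₘ 0) U ∧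
      U.card = S.card + j ∧ ∀ e ∈ U, e ∈ S ∨ e.1 = D := by
  have hinj : Function.Injective fun i : Fin 8 => (D, i) := fun i j h => (Prod.ext_iff.mp h).2
  obtain ⟨a1, a2, a3, a4, a5, a6⟩ := sn_ok x hx ⟨j, hj⟩
  have hfr : ∀ i ∈ sn x j, (D, i) ∉ S := by
    intro i hi hh
    rcases hS i hh with rfl | rfl
    exacts [a3 hi, a4 hi]
  refine ⟨_, _, a6, Cv.extL hinj (hadj D) h a1 a2 hfr, ?_, fun e he => ?_⟩
  · rw [Finset.card_union_of_disjoint, Finset.card_image_of_injective _ hinj, a5]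
    rw [Finset.disjoint_right]
    intro e he
    obtain ⟨i, hi, rfl⟩ := Finset.mem_image.mp he
    exact hfr i (List.mem_toFinset.mp hi)
  · rcases Finset.mem_union.mp he with h1 | h1
    · exact Or.inl h1
    · obtain ⟨i, -, rfl⟩ := Finset.mem_image.mp h1
      exact Or.inr rfl

include hadj in
theorem snake : ∀ (P : List ι) (D : ι),
    List.IsChain (fun T T' => ∀ i, Γ.Adj (T, i) (T', i)) (D :: P) → (D :: P).Nodup →
    ∀ s, 2 ≤ s → s ≤ 8 * (P.length + 1) → ∃ x U, (x = 1 ∨ x = 2) ∧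
      Cv Γ ((D, x) ::ₘ (D, 3) ::ₘ 0) U ∧ U.card = s ∧ ∀ e ∈ U, e.1 ∈ D :: P := by
  have base : ∀ (D : ι) (s : ℕ), 2 ≤ s → s ≤ 8 → ∃ x U, (x = 1 ∨ x = 2) ∧
      Cv Γ ((D, x) ::ₘ (D, 3) ::ₘ 0) U ∧ U.card = s ∧ ∀ e ∈ U, e.1 = D := by
    intro D s h1 h2
    have c0 : Cv Γ 0 ∅ := ⟨[], rfl, rfl⟩
    have c1 := (c0.new (y := (D, 3)) (by simp)).ext (hadj D 3 1 (by decide)) (by simp)
    obtain ⟨x, U, a1, a2, a3, a4⟩ := snake_step hadj D (Or.inl rfl) c1 (by simp) (s - 2) (by omega)
    refine ⟨x, U, a1, a2, ?_, fun e he => ?_⟩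
    · rw [a3, Finset.card_insert_of_notMem (by simp)]
      simp only [insert_empty_eq, Finset.card_singleton]
      omega
    · rcases a4 e he with h | h
      · simp only [insert_empty_eq, Finset.mem_insert, Finset.mem_singleton] at h
        rcases h with rfl | rfl <;> rfl
      · exact h
  intro P
  induction P with
  | nil =>
    intro D _ _ s h1 h2
    obtain ⟨x, U, a1, a2, a3, a4⟩ := base D s h1 (by simpa using h2)
    exact ⟨x, U, a1, a2, a3, fun e he => by simp [a4 e he]⟩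
  | cons D' P ih =>
    intro D hc hn s h1 h2
    by_cases h8 : s ≤ 8
    · obtain ⟨x, U, a1, a2, a3, a4⟩ := base D s h1 h8
      exact ⟨x, U, a1, a2, a3, fun e he => by simp [a4 e he]⟩
    rw [List.isChain_cons_cons] at hc
    rw [List.nodup_cons] at hn
    rw [List.length_cons] at h2
    obtain ⟨x, U, a1, a2, a3, a4⟩ := ih D' hc.2 hn.2 (max 2 (s - 8)) (by omega) (by omega)
    have hU : ∀ i, (D, i) ∉ U := fun i hi => hn.1 (a4 _ hi)
    have hx3 : (3 : Fin 8) ≠ x := by rcases a1 with rfl | rfl <;> decide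
    have c1 := a2.ext (hc.1 x).symm (hU x)
    rw [Multiset.cons_swap] at c1
    have hne : (D, (3 : Fin 8)) ∉ insert (D, x) U := by simp [hU, hx3]
    have c2 := c1.ext (hc.1 3).symm hne
    rw [Multiset.cons_swap] at c2
    obtain ⟨x', U', b1, b2, b3, b4⟩ := snake_step hadj D a1 c2 (by
      intro i hi
      simp only [Finset.mem_insert, Prod.mk.injEq, true_and, hU, or_false] at hi
      tauto) (s - max 2 (s - 8) - 2) (by omega)
    refine ⟨x', U', b1, b2, ?_, fun e he => ?_⟩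
    · rw [b3, Finset.card_insert_of_notMem hne, Finset.card_insert_of_notMem (hU x), a3]
      omega
    · rcases b4 e he with h | h
      · simp only [Finset.mem_insert] at h
        rcases h with rfl | rfl | h
        exacts [by simp, by simp, List.mem_cons_of_mem _ (a4 e h)]
      · simp [h]

theorem bottom (g : ι × Fin 8 → Bool → ι) (r : ι → ℕ) (L : Set ι)
    (hg : ∀ x k x' k', x.1 ∈ L → x'.1 ∈ L → g x k = g x' k' → x = x' ∧ k = k')
    (hr : ∀ x k, x.1 ∈ L → r x.1 < r (g x k)) (hl : ∀ x k, x.1 ∈ L → Γ.Adj x (g x k, x.2))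
    (A : Finset (ι × Fin 8)) : (∀ x ∈ A, x.1 ∈ L) → ∃ E : Multiset (ι × Fin 8),
      Cv Γ E (A ∪ E.toFinset) ∧ (E.map Prod.fst).Nodup ∧
        ∀ e ∈ E, e ∉ A ∧ ∃ x ∈ A, ∃ k, e = (g x k, x.2) := by
  induction A using Finset.induction_on_max_value (fun x : ι × Fin 8 => r x.1) with
  | empty => exact fun _ => ⟨0, ⟨[], by simp [Cov], rfl⟩, by simp, by simp⟩
  | insert x A hx hmax ih =>
    intro hA
    have hxL := hA x (Finset.mem_insert_self _ _)
    have hAL : ∀ y ∈ A, y.1 ∈ L := fun y hy => hA y (Finset.mem_insert_of_mem hy)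
    obtain ⟨E, h1, h2, h3⟩ := ih hAL
    have t1 : ∀ k, (g x k, x.2) ∉ insert x A := by
      intro k hh
      have := hr x k hxL
      rcases Finset.mem_insert.mp hh with h | h
      · rw [(Prod.ext_iff.mp h).1.symm] at this
        exact lt_irrefl _ this
      · exact absurd (hmax _ h) (not_le.mpr this)
    have t2 : ∀ k, g x k ∉ E.map Prod.fst := by
      intro k hh
      obtain ⟨e, he, he'⟩ := Multiset.mem_map.mp hh
      obtain ⟨-, y, hy, k', rfl⟩ := h3 e he
      exact hx ((hg _ _ _ _ (hAL y hy) hxL he').1 ▸ hy)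
    have t3 : ∀ k, (g x k, x.2) ∉ E := fun k hh => t2 k (Multiset.mem_map.mpr ⟨_, hh, rfl⟩)
    have t4 : ∀ k, (g x k, x.2) ∉ A ∪ E.toFinset := by
      intro k hh
      rcases Finset.mem_union.mp hh with h | h
      · exact t1 k (Finset.mem_insert_of_mem h)
      · exact t3 k (Multiset.mem_toFinset.mp h)
    have t5 : ∀ e ∈ E, e ≠ x → e ∉ insert x A ∧ ∃ y ∈ insert x A, ∃ k, e = (g y k, y.2) := by
      intro e he hne
      obtain ⟨a1, y, hy, a2⟩ := h3 e he
      exact ⟨fun hh => (Finset.mem_insert.mp hh).elim hne a1, y, Finset.mem_insert_of_mem hy, a2⟩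
    by_cases hxE : x ∈ E
    · obtain ⟨E', rfl⟩ := Multiset.exists_cons_of_mem hxE
      rw [Multiset.map_cons, Multiset.nodup_cons] at h2
      refine ⟨(g x false, x.2) ::ₘ E', ?_, ?_, fun e he => ?_⟩
      · convert h1.ext (hl x false hxL) (t4 false) using 1
        ext e
        simp only [Finset.mem_union, Finset.mem_insert, Multiset.toFinset_cons]
        tauto
      · rw [Multiset.map_cons, Multiset.nodup_cons]
        exact ⟨fun hh => t2 false (by simp [hh]), h2.2⟩
      · rcases Multiset.mem_cons.mp he with rfl | he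
        · exact ⟨t1 false, x, Finset.mem_insert_self _ _, false, rfl⟩
        · exact t5 e (Multiset.mem_cons_of_mem he) fun h =>
            h2.1 (Multiset.mem_map.mpr ⟨e, he, by rw [h]⟩)
    · have hxS : x ∉ A ∪ E.toFinset := by simp [hx, hxE]
      have hgg : g x true ≠ g x false := fun h => by simpa using (hg _ _ _ _ hxL hxL h).2
      have t6 : ∀ k, (g x k, x.2) ≠ x := fun k h => t1 k (by simp [h])
      have c1 := (h1.new hxS).ext (hl x false hxL)
        fun hh => (Finset.mem_insert.mp hh).elim (t6 false) (t4 false)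
      rw [Multiset.cons_swap] at c1
      have c2 := c1.ext (hl x true hxL) (by
        simp only [Finset.mem_insert, not_or]
        exact ⟨fun h => hgg (Prod.ext_iff.mp h).1, t6 true, t4 true⟩)
      refine ⟨(g x true, x.2) ::ₘ (g x false, x.2) ::ₘ E, ?_, ?_, fun e he => ?_⟩
      rotate_left
      · simp only [Multiset.map_cons, Multiset.nodup_cons, Multiset.mem_cons, not_or]
        exact ⟨⟨hgg, t2 true⟩, t2 false, h2⟩
      · simp only [Multiset.mem_cons] at he
        rcases he with rfl | rfl | he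
        · exact ⟨t1 true, x, Finset.mem_insert_self _ _, true, rfl⟩
        · exact ⟨t1 false, x, Finset.mem_insert_self _ _, false, rfl⟩
        · exact t5 e he fun h => hxE (h ▸ he)
      · convert c2 using 1
        ext e
        simp only [Finset.mem_union, Finset.mem_insert, Multiset.toFinset_cons]
        tauto

omit [DecidableEq ι] in
theorem top_part {α : Type} [DecidableEq α] (r : α → ℕ) (B : Finset α) : ∀ m, m ≤ B.card →
    ∃ A ⊆ B, A.card = m ∧ ∀ x ∈ A, ∀ y ∈ B, r x < r y → y ∈ A := by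
  intro m
  induction m with
  | zero => exact fun _ => ⟨∅, by simp, rfl, by simp⟩
  | succ m ih =>
    intro hm
    obtain ⟨A, h1, h2, h3⟩ := ih (by omega)
    obtain ⟨z, hz, hmax⟩ := Finset.exists_max_image (B \ A) r
      (Finset.card_pos.mp (by rw [Finset.card_sdiff_of_subset h1]; omega))
    rw [Finset.mem_sdiff] at hz
    refine ⟨insert z A, Finset.insert_subset hz.1 h1,
      by rw [Finset.card_insert_of_notMem hz.2, h2], fun x hx y hy hxy => ?_⟩
    rcases Finset.mem_insert.mp hx with rfl | hx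
    · by_contra hcon
      have := hmax y (Finset.mem_sdiff.mpr ⟨hy, fun h => hcon (Finset.mem_insert_of_mem h)⟩)
      omega
    · exact Finset.mem_insert_of_mem (h3 x hx y hy hxy)

include hadj in
theorem pan_abs (P : List ι) (D : ι)
    (hc : List.IsChain (fun T T' => ∀ i, Γ.Adj (T, i) (T', i)) (D :: P)) (hn : (D :: P).Nodup)
    (g : ι × Fin 8 → Bool → ι) (r : ι → ℕ)
    (hg : ∀ x k x' k', x.1 ∉ D :: P → x'.1 ∉ D :: P → g x k = g x' k' → x = x' ∧ k = k')
    (hr : ∀ x k, x.1 ∉ D :: P → r x.1 < r (g x k))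
    (hl : ∀ x k, x.1 ∉ D :: P → Γ.Adj x (g x k, x.2)) (F : Finset (ι × Fin 8))
    (hF : pcs (D :: P) ⊆ F) (hF' : ∀ x ∈ F, ∀ k, x.1 ∉ D :: P → (g x k, x.2) ∈ F) (l : ℕ)
    (h1 : 3 ≤ l) (h2 : l ≤ F.card) : ∃ x y, Γ.Adj y x ∧ Pth Γ F x y l := by
  have hcard : (pcs (D :: P)).card = 8 * (P.length + 1) := by
    rw [pcs, Finset.card_product, List.toFinset_card_of_nodup hn]
    simp [mul_comm]
  by_cases hl8 : l ≤ 8 * (P.length + 1)
  · obtain ⟨x, U, a1, a2, a3, a4⟩ := snake hadj P D hc hn l (by omega) hl8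
    refine ⟨_, _, hadj D x 3 (by rcases a1 with rfl | rfl <;> decide), ?_⟩
    exact a3 ▸ Pth.mono a2.two fun e he => hF (mem_pcs.mpr (a4 e he))
  obtain ⟨A, a1, a2, a3⟩ := top_part (fun x : ι × Fin 8 => r x.1) (F \ pcs (D :: P))
    (l - 8 * (P.length + 1)) (by rw [Finset.card_sdiff_of_subset hF]; omega)
  have hA : ∀ x ∈ A, x.1 ∉ D :: P := fun x hx h =>
    (Finset.mem_sdiff.mp (a1 hx)).2 (mem_pcs.mpr h)
  obtain ⟨E, b1, b2, b3⟩ := bottom g r {T | T ∉ D :: P} hg hr hl A hA
  have hE : ∀ e ∈ E, e.1 ∈ D :: P := by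
    intro e he
    obtain ⟨c1, x, hx, k, rfl⟩ := b3 e he
    by_contra hcon
    exact c1 (a3 x hx _ (Finset.mem_sdiff.mpr ⟨hF' x (Finset.mem_sdiff.mp (a1 hx)).1 k (hA x hx),
      fun h => hcon (mem_pcs.mp h)⟩) (hr x k (hA x hx)))
  have hcnt : ∀ T, (E.filter fun e => e.1 = T).card ≤ 1 := by
    intro T
    have := Multiset.nodup_iff_count_le_one.mp b2 T
    rw [Multiset.count_map] at this
    convert this using 3
    exact eq_comm
  obtain ⟨x, y, c1, c2⟩ := sweep hadj P D E _ hc hn b1 (Multiset.Nodup.of_map _ b2) hE (by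
    intro x hx hx'
    rcases Finset.mem_union.mp hx with h | h
    · exact absurd hx' (hA x h)
    · exact Multiset.mem_toFinset.mp h) ((hcnt D).trans (by norm_num)) fun T _ => hcnt T
  have e1 : A ∪ E.toFinset ∪ pcs (D :: P) = A ∪ pcs (D :: P) := by
    rw [Finset.union_assoc, Finset.union_eq_right.mpr fun e he =>
      mem_pcs.mpr (hE e (Multiset.mem_toFinset.mp he))]
  rw [e1] at c2
  have e2 : (A ∪ pcs (D :: P)).card = l := by
    rw [Finset.card_union_of_disjoint (Finset.disjoint_left.mpr fun x hx h =>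
      hA x hx (mem_pcs.mp h)), a2, hcard]
    omega
  refine ⟨x, y, c1, e2 ▸ Pth.mono c2 ?_⟩
  exact_mod_cast Finset.union_subset (a1.trans Finset.sdiff_subset) hF

end Sweep

end Pool.Agent.MP_e46b50_co.H93
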