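import Mathlib

set_option autoImplicit false

namespace Pool.Agent.MP_e46b50_co.H93

open Finset

variable {O W : Type} [DecidableEq O] (N : W → Finset O)

/-- every set of the family meets `T` in at least `j` points -/
def Rb (j : ℕ) (T : Finset O) : Prop := ∀ w, j ≤ (N w ∩ T).card

/-- one set arises from the other by deleting a point -/
def Fl (T T' : Finset O) : Prop := (∃ s ∈ T, T' = T.erase s) ∨ ∃ s ∈ T', T = T'.erase s

variable {N}

theorem Fl.symm {T T' : Finset O} (h : Fl T T') : Fl T' T := Or.symm h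

theorem Rb.mono {j : ℕ} {T T' : Finset O} (h : Rb N j T) (hT : T ⊆ T') : Rb N j T' :=
  fun w => (h w).trans (card_le_card (inter_subset_inter_left hT))

theorem Rb.erase {j : ℕ} {T : Finset O} (h : Rb N (j + 1) T) (s : O) : Rb N j (T.erase s) := by
  intro w
  have h1 := h w
  have h2 := Finset.pred_card_le_card_erase (s := N w ∩ T) (a := s)
  rw [← Finset.inter_erase] at h2
  omega

theorem Rb.le {i j : ℕ} {T : Finset O} (h : Rb N j T) (hij : i ≤ j) : Rb N i T :=
  fun w => hij.trans (h w)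

/-- a trimmed Gray code -/
theorem gray : ∀ (n : ℕ) (U Z : Finset O) (s : O), U.card = n → s ∈ U → U ⊆ Z → Rb N 2 Z →
    ∃ L : List (Finset O), List.IsChain Fl (Z :: (L ++ [Z.erase s])) ∧
      (Z :: (L ++ [Z.erase s])).Nodup ∧
      (∀ T ∈ Z :: (L ++ [Z.erase s]), Rb N 1 T ∧ T ⊆ Z ∧ Z \ U ⊆ T) ∧
      ∀ T, T ⊆ Z → Z \ U ⊆ T → Rb N 3 T → T ∈ Z :: (L ++ [Z.erase s]) := by
  intro n
  induction n with
  | zero => intro U Z s h hs; rw [card_eq_zero.mp h] at hs; simp at hs
  | succ n ih =>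
    intro U Z s hU hs hUZ hZ
    have hsZ := hUZ hs
    by_cases hc : Rb N 3 Z ∧ (U.erase s).Nonempty
    swap
    · refine ⟨[], ?_, ?_, ?_, ?_⟩
      · simp only [List.nil_append, List.isChain_cons_cons, List.isChain_singleton, and_true]
        exact Or.inl ⟨s, hsZ, rfl⟩
      · simp only [List.nil_append, List.nodup_cons, List.mem_singleton, List.not_mem_nil,
          not_false_eq_true, List.nodup_nil, and_true]
        exact (Finset.erase_ne_self.mpr hsZ).symm
      · intro T hT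
        simp only [List.nil_append, List.mem_cons, List.not_mem_nil, or_false] at hT
        rcases hT with rfl | rfl
        · exact ⟨hZ.le (by norm_num), Subset.rfl, sdiff_subset⟩
        · refine ⟨hZ.erase s, erase_subset _ _, fun x hx => ?_⟩
          rw [mem_sdiff] at hx
          exact mem_erase.mpr ⟨fun h => hx.2 (h ▸ hs), hx.1⟩
      · intro T h1 h2 h3
        have h4 : ∀ x ∈ U, x = s := by
          intro x hx
          by_contra hne
          exact hc ⟨h3.mono h1, x, mem_erase.mpr ⟨hne, hx⟩⟩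
        simp only [List.nil_append, List.mem_cons, List.not_mem_nil, or_false]
        by_cases hsT : s ∈ T
        · left
          refine Subset.antisymm h1 fun x hx => ?_
          by_cases hxU : x ∈ U
          · exact h4 x hxU ▸ hsT
          · exact h2 (mem_sdiff.mpr ⟨hx, hxU⟩)
        · right
          refine Subset.antisymm (fun x hx => mem_erase.mpr ⟨fun h => hsT (h ▸ hx), h1 hx⟩)
            fun x hx => ?_
          rw [mem_erase] at hx
          exact h2 (mem_sdiff.mpr ⟨hx.2, fun h => hx.1 (h4 x h)⟩)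
    obtain ⟨h3, t, ht⟩ := hc
    have hcard : (U.erase s).card = n := by rw [card_erase_of_mem hs, hU]; rfl
    obtain ⟨L₁, a1, a2, a3, a4⟩ := ih (U.erase s) Z t hcard ht ((erase_subset _ _).trans hUZ) hZ
    obtain ⟨L₂, b1, b2, b3, b4⟩ := ih (U.erase s) (Z.erase s) t hcard ht
      (erase_subset_erase _ hUZ) (h3.erase s)
    have key : Z :: ((L₁ ++ [Z.erase t] ++ (L₂ ++ [(Z.erase s).erase t]).reverse) ++ [Z.erase s]) =
        (Z :: (L₁ ++ [Z.erase t])) ++ (Z.erase s :: (L₂ ++ [(Z.erase s).erase t])).reverse := by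
      simp
    have hs1 : ∀ T ∈ Z :: (L₁ ++ [Z.erase t]), s ∈ T := fun T hT =>
      (a3 T hT).2.2 (mem_sdiff.mpr ⟨hsZ, notMem_erase _ _⟩)
    have hs2 : ∀ T ∈ Z.erase s :: (L₂ ++ [(Z.erase s).erase t]), s ∉ T := fun T hT h =>
      notMem_erase s Z ((b3 T hT).2.1 h)
    refine ⟨L₁ ++ [Z.erase t] ++ (L₂ ++ [(Z.erase s).erase t]).reverse, ?_, ?_, ?_, ?_⟩
    · rw [key, List.isChain_append]
      refine ⟨a1, ?_, ?_⟩
      · rw [List.isChain_reverse]
        exact b1.imp fun _ _ h => h.symm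
      · intro x hx y hy
        have e1 : x = Z.erase t := by
          rw [← List.cons_append, List.getLast?_append] at hx
          simpa [eq_comm] using hx
        have e2 : y = (Z.erase s).erase t := by
          simpa [eq_comm] using hy
        rw [e1, e2, erase_right_comm]
        exact Or.inl ⟨s, mem_erase.mpr ⟨(mem_erase.mp ht).1.symm, hsZ⟩, rfl⟩
    · rw [key, List.nodup_append]
      refine ⟨a2, List.nodup_reverse.mpr b2, fun x hx y hy h => ?_⟩
      exact hs2 y (List.mem_reverse.mp hy) (h ▸ hs1 x hx)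
    · intro T hT
      rw [key, List.mem_append, List.mem_reverse] at hT
      rcases hT with hT | hT
      · exact ⟨(a3 T hT).1, (a3 T hT).2.1,
          (sdiff_subset_sdiff Subset.rfl (erase_subset _ _)).trans (a3 T hT).2.2⟩
      · refine ⟨(b3 T hT).1, (b3 T hT).2.1.trans (erase_subset _ _), fun x hx => (b3 T hT).2.2 ?_⟩
        simp only [mem_sdiff, mem_erase] at hx ⊢
        exact ⟨⟨fun h => hx.2 (h ▸ hs), hx.1⟩, fun h => hx.2 h.2⟩
    · intro T h1 h2 hT
      rw [key, List.mem_append, List.mem_reverse]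
      by_cases hsT : s ∈ T
      · refine Or.inl (a4 T h1 (fun x hx => ?_) hT)
        simp only [mem_sdiff, mem_erase, not_and] at hx
        by_cases hxs : x = s
        · exact hxs ▸ hsT
        · exact h2 (mem_sdiff.mpr ⟨hx.1, hx.2 hxs⟩)
      · refine Or.inr (b4 T (fun x hx => mem_erase.mpr ⟨fun h => hsT (h ▸ hx), h1 hx⟩)
          (fun x hx => ?_) hT)
        simp only [mem_sdiff, mem_erase, not_and] at hx
        exact h2 (mem_sdiff.mpr ⟨hx.1.2, hx.2 hx.1.1⟩)

variable [Fintype O] [Fintype W]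

variable (N) in
/-- weight of the step that adds `b` to `T` -/
noncomputable def arc (T : Finset O) (b : O) : ℝ :=
  ∑ w, if b ∈ N w then (1 / 2 : ℝ) ^ (N w ∩ T).card else 0

variable (N) in
noncomputable def out (T : Finset O) : ℝ :=
  ∑ w, (1 / 2 : ℝ) ^ (N w ∩ T).card * (((N w).card : ℝ) - (N w ∩ T).card)

omit [Fintype O] in
theorem arc_nonneg (T : Finset O) (b : O) : 0 ≤ arc N T b :=
  sum_nonneg fun _ _ => by split_ifs <;> positivity

theorem sum_arc (T : Finset O) : ∑ b ∈ Tᶜ, arc N T b = out N T := by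
  unfold arc out
  rw [sum_comm]
  refine sum_congr rfl fun w _ => ?_
  rw [← sum_filter, sum_const, nsmul_eq_mul, mul_comm]
  congr 1
  have h1 : (Tᶜ.filter fun b => b ∈ N w) = N w \ T := by ext; simp [and_comm]
  have h2 := card_sdiff_add_card_inter (N w) T
  rw [h1, ← h2]
  push_cast
  ring

omit [Fintype O] in
theorem sum_arc_in (Z : Finset O) : ∑ b ∈ Z, arc N (Z.erase b) b =
    ∑ w, (1 / 2 : ℝ) ^ (N w ∩ Z).card * (2 * (N w ∩ Z).card) := by
  unfold arc
  rw [sum_comm]
  refine sum_congr rfl fun w _ => ?_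
  rw [← sum_filter, sum_congr rfl (g := fun _ => 2 * (1 / 2 : ℝ) ^ (N w ∩ Z).card), sum_const,
    nsmul_eq_mul]
  · have h1 : (Z.filter fun b => b ∈ N w) = N w ∩ Z := by ext; simp [and_comm]
    rw [h1]; ring
  · intro b hb
    rw [mem_filter] at hb
    have h2 := card_erase_add_one (mem_inter.mpr ⟨hb.2, hb.1⟩ : b ∈ N w ∩ Z)
    rw [inter_erase, ← h2, pow_succ]
    ring

omit [Fintype O] in
theorem out_anti {T Z : Finset O} (h : T ⊆ Z) : out N Z ≤ out N T := by
  refine sum_le_sum fun w _ => ?_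
  have h1 : (N w ∩ T).card ≤ (N w ∩ Z).card := card_le_card (inter_subset_inter_left h)
  have h2 : (N w ∩ Z).card ≤ (N w).card := card_le_card inter_subset_left
  have h3 : ((N w ∩ T).card : ℝ) ≤ (N w ∩ Z).card := by exact_mod_cast h1
  have h4 : ((N w ∩ Z).card : ℝ) ≤ (N w).card := by exact_mod_cast h2
  exact mul_le_mul (pow_le_pow_of_le_one (by norm_num) (by norm_num) h1) (by linarith)
    (by linarith) (by positivity)

theorem half_anti {k j : ℕ} (hk : 1 ≤ k) (h : k ≤ j) :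
    (1 / 2 : ℝ) ^ j * j ≤ (1 / 2 : ℝ) ^ k * k := by
  induction j, h using Nat.le_induction with
  | base => exact le_rfl
  | succ j hj ih =>
    refine le_trans ?_ ih
    have h1 : (1 : ℝ) ≤ j := by exact_mod_cast hk.trans hj
    have h2 : (0 : ℝ) < (1 / 2) ^ j := by positivity
    rw [pow_succ]
    push_cast
    nlinarith

omit [Fintype O] in
theorem in_le_out {k : ℕ} (hk : 6 ≤ k) (hN : ∀ w, 33 * k ≤ (N w).card)
    (hW : 16 * Fintype.card W ≤ 2 ^ k) {Z : Finset O} (hZ : ¬ Rb N 4 Z) :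
    16 * ∑ b ∈ Z, arc N (Z.erase b) b < out N Z := by
  classical
  obtain ⟨w₀, hw₀⟩ := not_forall.mp hZ
  rw [sum_arc_in, ← sub_pos, out, mul_sum, ← sum_sub_distrib]
  have hk' : (6 : ℝ) ≤ k := by exact_mod_cast hk
  set c : ℝ := 33 * ((1 / 2 : ℝ) ^ k * k) with hc
  have hc0 : 0 < c := by positivity
  have h1 : ∀ w, -c ≤ (1 / 2 : ℝ) ^ (N w ∩ Z).card * (((N w).card : ℝ) - (N w ∩ Z).card) -
      16 * ((1 / 2 : ℝ) ^ (N w ∩ Z).card * (2 * (N w ∩ Z).card)) := by
    intro w
    have h2 : (33 * k : ℝ) ≤ (N w).card := by exact_mod_cast hN w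
    have h3 : (0 : ℝ) < (1 / 2) ^ (N w ∩ Z).card := by positivity
    rcases le_total (N w ∩ Z).card k with h | h
    · have h4 : ((N w ∩ Z).card : ℝ) ≤ k := by exact_mod_cast h
      nlinarith
    · have h4 := half_anti (by omega) h
      nlinarith
  have h2 : 33 * k / 16 ≤ (1 / 2 : ℝ) ^ (N w₀ ∩ Z).card * (((N w₀).card : ℝ) - (N w₀ ∩ Z).card) -
      16 * ((1 / 2 : ℝ) ^ (N w₀ ∩ Z).card * (2 * (N w₀ ∩ Z).card)) := by
    have h3 : (33 * k : ℝ) ≤ (N w₀).card := by exact_mod_cast hN w₀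
    have h4 : (N w₀ ∩ Z).card ≤ 3 := by omega
    have h5 : ((N w₀ ∩ Z).card : ℝ) ≤ 3 := by exact_mod_cast h4
    have h6 : (1 / 2 : ℝ) ^ 3 ≤ (1 / 2) ^ (N w₀ ∩ Z).card :=
      pow_le_pow_of_le_one (by norm_num) (by norm_num) h4
    nlinarith
  have h3 : (Fintype.card W : ℝ) * c ≤ 33 * k / 16 := by
    have h4 : (16 * Fintype.card W : ℝ) ≤ 2 ^ k := by exact_mod_cast hW
    have h5 : (1 / 2 : ℝ) ^ k * 2 ^ k = 1 := by rw [← mul_pow]; norm_num
    have h6 : (0 : ℝ) < (1 / 2) ^ k := by positivity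
    have h7 : (Fintype.card W : ℝ) * (1 / 2) ^ k ≤ 1 / 16 := by nlinarith
    rw [hc]
    nlinarith
  rw [← add_sum_erase _ _ (mem_univ w₀)]
  have h4 := card_nsmul_le_sum (univ.erase w₀) _ (-c) fun w _ => h1 w
  rw [card_erase_of_mem (mem_univ _), card_univ, nsmul_eq_mul,
    Nat.cast_sub (Fintype.card_pos_iff.mpr ⟨w₀⟩)] at h4
  push_cast at h4
  nlinarith

/-- upper neighbours -/
def ups (T : Finset O) : Finset (Finset O) := Tᶜ.image fun b => insert b T

theorem expand {k : ℕ} (hk : 6 ≤ k) (hN : ∀ w, 33 * k ≤ (N w).card)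
    (hW : 16 * Fintype.card W ≤ 2 ^ k) (A : Finset (Finset O)) (hA : ∀ T ∈ A, ¬ Rb N 3 T) :
    16 * A.card ≤ (A.biUnion ups).card := by
  classical
  have hlow : ∀ T ∈ A, ∀ b, ¬ Rb N 4 (insert b T) := by
    intro T hT b h
    exact hA T hT ((h.erase b).mono (by rw [erase_insert_eq_erase]; exact erase_subset _ _))
  have hpos : ∀ Z, ¬ Rb N 4 Z → 0 < out N Z := fun Z hZ =>
    lt_of_le_of_lt (mul_nonneg (by norm_num) (sum_nonneg fun b _ => arc_nonneg _ _))
      (in_le_out hk hN hW hZ)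
  have h1 : (16 * A.card : ℝ) ≤
      ∑ T ∈ A, ∑ b ∈ Tᶜ, 16 * arc N T b / out N (insert b T) := by
    rw [mul_comm, ← nsmul_eq_mul]
    refine card_nsmul_le_sum _ _ _ fun T hT => ?_
    have h2 : 0 < out N T := hpos T fun h => hA T hT (h.le (by norm_num))
    calc (16 : ℝ) = ∑ b ∈ Tᶜ, 16 * arc N T b / out N T := by
          rw [← sum_div, ← mul_sum, sum_arc]; field_simp
      _ ≤ _ := sum_le_sum fun b _ => div_le_div_of_nonneg_left
          (mul_nonneg (by norm_num) (arc_nonneg _ _)) (hpos _ (hlow T hT b))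
          (out_anti (subset_insert _ _))
  have hups : ∀ Z ∈ A.biUnion ups, ¬ Rb N 4 Z := by
    intro Z hZ
    obtain ⟨T, hT, hZ⟩ := mem_biUnion.mp hZ
    obtain ⟨b, -, rfl⟩ := mem_image.mp hZ
    exact hlow T hT b
  have h2 : ∑ T ∈ A, ∑ b ∈ Tᶜ, 16 * arc N T b / out N (insert b T) ≤
      ∑ Z ∈ A.biUnion ups, ∑ b ∈ Z, 16 * arc N (Z.erase b) b / out N Z := by
    rw [sum_sigma', sum_sigma']
    set φ : (Σ _ : Finset O, O) → Σ _ : Finset O, O := fun x => ⟨insert x.2 x.1, x.2⟩ with hφ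
    have hinj : Set.InjOn φ (A.sigma fun T => Tᶜ) := by
      rintro ⟨T, b⟩ hx ⟨T', b'⟩ hy h
      simp only [coe_sigma, Set.mem_sigma_iff, mem_coe, mem_compl] at hx hy
      simp only [hφ, Sigma.mk.injEq, heq_eq_eq] at h ⊢
      obtain ⟨h3, rfl⟩ := h
      exact ⟨by rw [← erase_insert hx.2, h3, erase_insert hy.2], rfl⟩
    calc _ = ∑ y ∈ (A.sigma fun T => Tᶜ).image φ, 16 * arc N (y.1.erase y.2) y.2 / out N y.1 := by
          rw [sum_image hinj]
          refine sum_congr rfl ?_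
          rintro ⟨T, b⟩ hx
          rw [mem_sigma, mem_compl] at hx
          simp only [hφ, erase_insert hx.2]
      _ ≤ _ := by
          refine sum_le_sum_of_subset_of_nonneg (fun y hy => ?_) ?_
          · obtain ⟨⟨T, b⟩, hx, rfl⟩ := mem_image.mp hy
            rw [mem_sigma] at hx ⊢
            exact ⟨mem_biUnion.mpr ⟨T, hx.1, mem_image.mpr ⟨b, hx.2, rfl⟩⟩, mem_insert_self _ _⟩
          · rintro ⟨Z, b⟩ hx _
            rw [mem_sigma] at hx
            exact div_nonneg (mul_nonneg (by norm_num) (arc_nonneg _ _)) (hpos _ (hups Z hx.1)).le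
  have h3 : ∑ Z ∈ A.biUnion ups, ∑ b ∈ Z, 16 * arc N (Z.erase b) b / out N Z ≤
      ((A.biUnion ups).card : ℝ) := by
    rw [← mul_one ((A.biUnion ups).card : ℝ), ← nsmul_eq_mul]
    refine sum_le_card_nsmul _ _ _ fun Z hZ => ?_
    rw [← sum_div, ← mul_sum, div_le_one (hpos Z (hups Z hZ))]
    exact (in_le_out hk hN hW (hups Z hZ)).le
  exact_mod_cast h1.trans (h2.trans h3)

theorem hall16 {k : ℕ} (hk : 6 ≤ k) (hN : ∀ w, 33 * k ≤ (N w).card)
    (hW : 16 * Fintype.card W ≤ 2 ^ k) : ∃ g : Finset O × Fin 8 → Bool → Finset O,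
    (∀ x i x' i', ¬ Rb N 3 x.1 → ¬ Rb N 3 x'.1 → g x i = g x' i' → x = x' ∧ i = i') ∧
      ∀ x i, ¬ Rb N 3 x.1 → ∃ b, b ∉ x.1 ∧ g x i = insert b x.1 := by
  classical
  obtain ⟨f, hf, hf'⟩ := (all_card_le_biUnion_card_iff_exists_injective
    (fun z : {T : Finset O // ¬ Rb N 3 T} × (Fin 8 × Bool) => ups z.1.1)).mp (by
      intro s
      have h1 := expand hk hN hW (s.image fun z => z.1.1) (by
        intro T hT
        obtain ⟨z, -, rfl⟩ := mem_image.mp hT
        exact z.1.2)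
      rw [image_biUnion] at h1
      refine le_trans ?_ h1
      refine card_le_mul_card_image s 16 fun T _ => ?_
      refine (card_le_card_of_injOn (t := univ) (fun z => z.2) (fun _ _ => mem_univ _) ?_).trans
        (by simp)
      intro x hx y hy h
      simp only [coe_filter, Set.mem_ofPred_eq] at hx hy
      exact Prod.ext (Subtype.ext (hx.2.trans hy.2.symm)) h)
  refine ⟨fun x i => if h : Rb N 3 x.1 then ∅ else f (⟨x.1, h⟩, x.2, i), ?_, ?_⟩
  · intro x i x' i' h h' he
    simp only [dif_neg h, dif_neg h'] at he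
    have := hf he
    simp only [Prod.mk.injEq, Subtype.mk.injEq] at this
    exact ⟨Prod.ext this.1 this.2.1, this.2.2⟩
  · intro x i h
    obtain ⟨b, hb, he⟩ := mem_image.mp (hf' (⟨x.1, h⟩, x.2, i))
    exact ⟨b, mem_compl.mp hb, by simp only [dif_neg h]; exact he.symm⟩

end Pool.Agent.MP_e46b50_co.H93
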