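import Pool.Agent.MP_e46b50_co.H93.Cov
import Pool.Agent.MP_e46b50_co.H93.Hyp

set_option autoImplicit false

namespace Pool.Agent.MP_e46b50_co.H93

open Finset

/-- the subset of `Fin 3` with a given binary code -/
def ps (i : Fin 8) : Finset (Fin 3) := univ.filter fun k => i.1.testBit k.1

theorem ps_inj : ∀ i j, ps i = ps j → i = j := by decide

theorem ps_surj : ∀ Y, ∃ i, ps i = Y := by decide

theorem ps_adj : ∀ i j, adj8 i j = true → (∃ k ∈ ps i, ps j = (ps i).erase k) ∨
    (∃ k ∈ ps j, ps i = (ps j).erase k) ∨ ∃ m, 0 ∈ ps m ∧ 1 ∈ ps m ∧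
      ((ps i = (ps m).erase 0 ∧ ps j = (ps m).erase 1) ∨
        (ps i = (ps m).erase 1 ∧ ps j = (ps m).erase 0)) := by decide

variable {V : Type} [DecidableEq V] [Fintype V] (q : Fin 3 ↪ V)

/-- the vertices outside the chosen triple -/
abbrev Out := {v : V // ∀ k, q k ≠ v}

/-- the vertex set with given parts outside and inside the triple -/
def el (T : Finset (Out q)) (Y : Finset (Fin 3)) : Finset V :=
  T.map (Function.Embedding.subtype _) ∪ Y.map q

variable {q}

omit [Fintype V] in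
theorem mem_el_out {T : Finset (Out q)} {Y : Finset (Fin 3)} {u : Out q} :
    u.1 ∈ el q T Y ↔ u ∈ T := by
  simp only [el, mem_union, mem_map, Function.Embedding.coe_subtype]
  constructor
  · rintro (⟨a, ha, h⟩ | ⟨k, -, h⟩)
    · exact Subtype.ext h ▸ ha
    · exact absurd h (u.2 k)
  · exact fun h => Or.inl ⟨u, h, rfl⟩

omit [Fintype V] in
theorem mem_el_in {T : Finset (Out q)} {Y : Finset (Fin 3)} {k : Fin 3} :
    q k ∈ el q T Y ↔ k ∈ Y := by
  simp only [el, mem_union, mem_map, Function.Embedding.coe_subtype]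
  constructor
  · rintro (⟨a, -, h⟩ | ⟨j, hj, h⟩)
    · exact absurd h.symm (a.2 k)
    · exact q.injective h ▸ hj
  · exact fun h => Or.inr ⟨k, h, rfl⟩

omit [Fintype V] in
theorem el_ext {X X' : Finset V} (h1 : ∀ u : Out q, u.1 ∈ X ↔ u.1 ∈ X')
    (h2 : ∀ k, q k ∈ X ↔ q k ∈ X') : X = X' := by
  ext v
  by_cases h : ∀ k, q k ≠ v
  · exact h1 ⟨v, h⟩
  · push Not at h
    obtain ⟨k, rfl⟩ := h
    exact h2 k

omit [Fintype V] in
theorem el_erase_in (T : Finset (Out q)) (Y : Finset (Fin 3)) (k : Fin 3) :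
    el q T (Y.erase k) = (el q T Y).erase (q k) := by
  refine el_ext (q := q) (fun u => ?_) fun j => ?_
  · simp [mem_el_out, (u.2 k).symm]
  · simp [mem_el_in]

omit [Fintype V] in
theorem el_erase_out (T : Finset (Out q)) (Y : Finset (Fin 3)) (s : Out q) :
    el q (T.erase s) Y = (el q T Y).erase s.1 := by
  refine el_ext (q := q) (fun u => ?_) fun j => ?_
  · simp [mem_el_out, Subtype.ext_iff]
  · simp [mem_el_in, s.2 j]

variable (q) in
/-- the coding of vertex sets -/
def cod (x : Finset (Out q) × Fin 8) : Finset V := el q x.1 (ps x.2)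

omit [Fintype V] in
theorem cod_inj : Function.Injective (cod q) := by
  rintro ⟨T, i⟩ ⟨T', j⟩ h
  simp only [cod] at h
  refine Prod.ext ?_ (ps_inj _ _ ?_)
  · ext u
    rw [← mem_el_out (Y := ps i), h, mem_el_out]
  · ext k
    rw [← mem_el_in (T := T), h, mem_el_in]

theorem cod_surj : Function.Surjective (cod q) := by
  intro X
  obtain ⟨i, hi⟩ := ps_surj (univ.filter fun k => q k ∈ X)
  refine ⟨(univ.filter fun u : Out q => u.1 ∈ X, i), el_ext (q := q) (fun u => ?_) fun k => ?_⟩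
  · simp [cod, mem_el_out]
  · simp [cod, mem_el_in, hi]

theorem Pth.comap {α β : Type} {Γ : SimpleGraph β} {f : α → β} (hf : Function.Injective f)
    {A : Set α} {B : Set β} (hAB : ∀ x ∈ A, f x ∈ B) {a b : α} {k : ℕ}
    (h : Pth (Γ.comap f) A a b k) : Pth Γ B (f a) (f b) k := by
  obtain ⟨p, h1, h2, h3⟩ := h
  refine ⟨p.map (SimpleGraph.Hom.comap f Γ), SimpleGraph.Walk.IsPath.map hf h1, fun y hy => ?_,
    (congrArg (· + 1) (SimpleGraph.Walk.length_map (SimpleGraph.Hom.comap f Γ) p)).trans h3⟩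
  obtain ⟨x, hx, rfl⟩ := List.mem_map.mp
    ((SimpleGraph.Walk.support_map (SimpleGraph.Hom.comap f Γ) p) ▸ hy :
      y ∈ p.support.map (SimpleGraph.Hom.comap f Γ))
  exact hAB x (h2 x hx)

theorem pan_of_degree (G : SimpleGraph V) [DecidableRel G.Adj] (h01 : G.Adj (q 0) (q 1)) {k : ℕ}
    (hk : 6 ≤ k) (hn : 16 * Fintype.card V ≤ 2 ^ k) (hd : ∀ v, 33 * k + 2 ≤ G.degree v) :
    Pan G univ := by
  classical
  set N : V → Finset (Out q) := fun w => univ.filter fun u => u.1 = w ∨ G.Adj w u.1 with hN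
  have hNc : ∀ w, 33 * k ≤ (N w).card := by
    intro w
    have h1 : insert w (G.neighborFinset w) ⊆ el q (N w) univ := by
      intro v hv
      by_cases h : ∀ k, q k ≠ v
      · exact (mem_el_out (u := ⟨v, h⟩)).mpr (by simpa [hN] using hv)
      · push Not at h
        obtain ⟨j, rfl⟩ := h
        exact mem_el_in.mpr (mem_univ _)
    have h2 := (card_le_card h1).trans (card_union_le _ _)
    rw [card_insert_of_notMem (by simp), card_map, card_map, G.card_neighborFinset_eq_degree,
      card_univ, Fintype.card_fin] at h2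
    have := hd w
    omega
  have hdom : ∀ T i, Rb N 1 T → Dominating G (cod q (T, i)) := by
    intro T i h v hv
    obtain ⟨u, hu⟩ := card_pos.mp (h v)
    simp only [hN, mem_inter, mem_filter, mem_univ, true_and] at hu
    have hu' : u.1 ∈ cod q (T, i) := mem_el_out.mpr hu.2
    exact ⟨u.1, hu', hu.1.resolve_left fun h => hv (h ▸ hu')⟩
  set Γ := (gam G).comap (cod q) with hΓ
  have hadj : ∀ T i j, adj8 i j = true → Γ.Adj (T, i) (T, j) := by
    intro T i j h
    show (gam G).Adj (el q T (ps i)) (el q T (ps j))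
    rcases ps_adj i j h with ⟨a, ha, h⟩ | ⟨a, ha, h⟩ | ⟨m, h0, h1, ⟨h2, h3⟩ | ⟨h2, h3⟩⟩
    · rw [h, el_erase_in]; exact adj_erase (mem_el_in.mpr ha)
    · rw [h, el_erase_in]; exact (adj_erase (mem_el_in.mpr ha)).symm
    · rw [h2, h3, el_erase_in, el_erase_in]
      exact adj_slide (mem_el_in.mpr h0) (mem_el_in.mpr h1) h01
    · rw [h2, h3, el_erase_in, el_erase_in]
      exact adj_slide (mem_el_in.mpr h1) (mem_el_in.mpr h0) h01.symm
  have hfl : ∀ T T', Fl T T' → ∀ i, Γ.Adj (T, i) (T', i) := by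
    intro T T' h i
    show (gam G).Adj (el q T (ps i)) (el q T' (ps i))
    rcases h with ⟨s, hs, rfl⟩ | ⟨s, hs, rfl⟩
    · rw [el_erase_out]; exact adj_erase (mem_el_out.mpr hs)
    · rw [el_erase_out]; exact (adj_erase (mem_el_out.mpr hs)).symm
  obtain ⟨s, -⟩ : (N (q 0)).Nonempty := card_pos.mp (by have := hNc (q 0); omega)
  obtain ⟨L, a1, a2, a3, a4⟩ := gray (N := N) _ univ univ s rfl (mem_univ _) Subset.rfl
    (fun w => by rw [inter_univ]; have := hNc w; omega)
  obtain ⟨g, g1, g2⟩ := hall16 hk hNc hn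
  have hlow : ∀ T, T ∉ univ :: (L ++ [univ.erase s]) → ¬ Rb N 3 T := fun T hT h =>
    hT (a4 T (subset_univ _) (by simp) h)
  intro l h1 h2
  have hc : (univ.filter fun x => Dominating G (cod q x)).card = (Fam G univ).card := by
    refine card_bij (fun x _ => cod q x) (fun x hx => ?_) (fun x _ y _ h => cod_inj h) fun X hX => ?_
    · exact mem_Fam.mpr ⟨by simp, (mem_filter.mp hx).2⟩
    · obtain ⟨x, rfl⟩ := cod_surj (q := q) X
      exact ⟨x, mem_filter.mpr ⟨mem_univ _, (mem_Fam.mp hX).2⟩, rfl⟩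
  obtain ⟨x, y, c1, c2⟩ := pan_abs hadj _ univ (a1.imp fun T T' h => hfl T T' h) a2 g card
    (fun x i x' i' h h' => g1 x i x' i' (hlow _ h) (hlow _ h'))
    (fun x i h => by
      obtain ⟨b, hb, he⟩ := g2 x i (hlow _ h)
      rw [he, card_insert_of_notMem hb]; omega)
    (fun x i h => by
      obtain ⟨b, hb, he⟩ := g2 x i (hlow _ h)
      exact hfl x.1 (g x i) (Or.inr ⟨b, by simp [he], by rw [he, erase_insert hb]⟩) x.2)
    (univ.filter fun x => Dominating G (cod q x))
    (fun x hx => mem_filter.mpr ⟨mem_univ _, hdom x.1 x.2 (a3 _ (mem_pcs.mp hx)).1⟩)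
    (fun x hx i h => by
      obtain ⟨b, -, he⟩ := g2 x i (hlow _ h)
      refine mem_filter.mpr ⟨mem_univ _, Dominating.up ?_ (mem_filter.mp hx).2⟩
      exact union_subset_union_left (map_subset_map.mpr (he ▸ subset_insert _ _)))
    l h1 (hc ▸ h2)
  exact ⟨_, _, c1, Pth.comap cod_inj
    (fun x hx => mem_coe.mpr (mem_Fam.mpr ⟨by simp, (mem_filter.mp hx).2⟩)) c2⟩

theorem pan_minDegree (G : SimpleGraph V) [DecidableRel G.Adj]
    (h : 33 * Nat.clog 2 (Fintype.card V) + 134 ≤ G.minDegree) : Pan G univ := by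
  classical
  have hd : ∀ v, 33 * (Nat.clog 2 (Fintype.card V) + 4) + 2 ≤ G.degree v := fun v => by
    have := G.minDegree_le_degree v
    omega
  have hV : Nonempty V := by
    by_contra hV
    rw [not_nonempty_iff] at hV
    rw [SimpleGraph.minDegree_of_subsingleton] at h
    omega
  obtain ⟨a⟩ := hV
  obtain ⟨b, hb, c, hc, hbc⟩ := one_lt_card.mp
    (show 1 < (G.neighborFinset a).card by
      rw [G.card_neighborFinset_eq_degree]; have := hd a; omega)
  rw [SimpleGraph.mem_neighborFinset] at hb hc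
  have hq : Function.Injective ![a, b, c] := by
    intro i j hij
    have := hb.ne
    have := hc.ne
    fin_cases i <;> fin_cases j <;> simp_all
  have hn := Nat.le_pow_clog (b := 2) (by norm_num) (Fintype.card V)
  have hlt := G.degree_lt_card_verts a
  refine pan_of_degree (q := ⟨_, hq⟩) G hb (k := Nat.clog 2 (Fintype.card V) + 4) ?_ ?_ hd
  · by_contra hk
    have h1 : 2 ^ Nat.clog 2 (Fintype.card V) ≤ 2 ^ 1 := Nat.pow_le_pow_right (by norm_num) (by omega)
    have := hd a
    omega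
  · rw [pow_add]; omega

end Pool.Agent.MP_e46b50_co.H93
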