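import Pool.Agent.MP_e46b50_co.Mg.Main

set_option autoImplicit false

namespace Pool.Agent.MP_e46b50_co.H93

/-- adjacency in the product of two triangles -/
def ad9 (p q : Fin 9) : Bool := (p.1 / 3 == q.1 / 3) != (p.1 % 3 == q.1 % 3)

def al (a b : ℕ) (p : Fin 9) : Bool := decide (p.1 / 3 < a) && decide (p.1 % 3 < b)

def dg9 : ℕ → ℕ → List (Fin 9)
  | 0, _ => []
  | k + 1, c => ⟨c % 9, Nat.mod_lt _ (by norm_num)⟩ :: dg9 k (c / 9)

def tbF : List ℕ :=
  [3005238609, 2072076, 333927458, 1625329089, 2755745649, 25204, 1534236, 1147150449, 448025, 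
  2219496, 3774696, 1277592849, 2129676, 879036, 664130529, 1492624449, 2925527409, 799238529, 
  10804, 2963220849, 4013016, 761676, 950072769, 557870769, 1280076, 909096, 1146829329, 
  809331489, 1081896, 2047416, 1574347329, 2596876, 2102969809, 3429866449, 3233386369, 31604, 
  1540636, 1146631969, 2867416, 4422616, 1283489569, 2712076, 1869422689, 3302325649, 3345850369, 
  4529896, 897518449, 1207276, 1146166849, 2564296, 2004740929, 3179276, 2575944209, 3812561489, 
  3706360769, 3236876, 2299947329, 3732850289, 3770347169, 2381473649, 2705436, 3005347089, 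
  2093630529, 2384938929, 30004, 4032216, 3223836, 2925675489, 2483496, 3084876, 2596961649, 
  2252115489, 3556296, 2429676, 3005071329, 1812019089, 2829096, 1976837169, 2574617169, 
  3429908689, 2332384609, 4549096, 3151036, 3302408209, 3091276, 3075250369, 2258012209, 4204216, 
  3429575329, 2568647569, 3812473409, 3732801809, 3547576769, 3812219249, 3801918129, 3224025249, 
  4230696, 3409759329, 4403496, 3708357729, 3541527249, 3085509489, 3749363809, 3702388129, 
  3547423969]

def tbP : List ℕ :=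
  [326775968, 3777936, 179809568, 4105986, 142726958, 49504, 73640528, 18904, 232297488, 
  381100968, 4433956, 142208478, 55904, 19004, 423608158, 285433498, 5081966, 38904, 63204, 
  326884448, 233587028, 3492756, 4083246, 265079828, 38104, 49804, 368808528, 3492046, 259174218, 
  4673026, 38204, 56204, 416565418, 5190716, 63504, 358180448, 422543858, 5067426, 4673766, 
  51904, 60004, 416638248, 5066716, 60104]

def lsF : List (List (Fin 9)) :=
  (tbF.map fun c => dg9 (c % 10) (c / 10)) ++ tbF.map fun c => (dg9 (c % 10) (c / 10)).reverse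

def lsP : List (List (Fin 9)) :=
  (tbP.map fun c => dg9 (c % 10) (c / 10)) ++ (tbP.map fun c => (dg9 (c % 10) (c / 10)).reverse) ++ lsF

/-- `l` is a walk from `a` to `b` inside `A` -/
def wk (A : Fin 9 → Bool) (b : Fin 9) : Fin 9 → List (Fin 9) → Bool
  | _, [] => false
  | a, [x] => x == a && x == b && A x
  | a, x :: y :: l => x == a && A x && ad9 x y && wk A b y (y :: l)

def ed (l : List (Fin 9)) (i : ℕ) : Fin 9 × Fin 9 := (l.getD i 0, l.getD (i + 1) 0)

def eqv (e f : Fin 9 × Fin 9) : Bool := e == f || e == f.swap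

def isE (A : Fin 9 → Bool) (e : Fin 9 × Fin 9) : Bool := A e.1 && A e.2 && ad9 e.1 e.2

def cnt (A : Fin 9 → Bool) : ℕ := (Finset.univ.filter fun p => A p).card

def c3 (A : Fin 9 → Bool) (a b : Fin 9) (e f : Fin 9 × Fin 9) (l₁ l₂ l₃ : List (Fin 9)) : Bool :=
  wk A e.1 a l₁ && wk A f.1 e.2 l₂ && wk A b f.2 l₃ && decide (l₁ ++ l₂ ++ l₃).Nodup &&
    (l₁ ++ l₂ ++ l₃).length == cnt A

def c2 (A : Fin 9 → Bool) (a b : Fin 9) (l : List (Fin 9)) (i j : ℕ) : Bool :=
  isE A (ed l i) && isE A (ed l j) &&
    c3 A a b (ed l (min i j)) (ed l (max i j)) (l.take (min i j + 1))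
      ((l.drop (min i j + 1)).take (max i j - min i j)) (l.drop (max i j + 1))

def full (A : Fin 9 → Bool) (a b : Fin 9) (e : Fin 9 × Fin 9) : Bool :=
  lsF.any fun l => wk A b a l && (List.range 8).any fun i => eqv (ed l i) e &&
    c2 A a b l i (if i = 0 then 1 else 0) && c2 A a b l i (if i ≤ 1 then 2 else 1) &&
      !eqv (ed l (if i = 0 then 1 else 0)) (ed l (if i ≤ 1 then 2 else 1))

def part (A : Fin 9 → Bool) (a b : Fin 9) : Bool :=
  (List.range 10).all fun k => k ≤ 2 || cnt A < k || lsP.any fun l => wk A b a l &&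
    decide l.Nodup && decide (k ≤ l.length ∧ l.length ≤ k + 1)

theorem tab9 : ∀ a b : Fin 2, ∀ f : Fin 9 × Fin 9, isE (al (a + 2) (b + 2)) f = true →
    part (al (a + 2) (b + 2)) f.1 f.2 = true ∧ ∀ e : Fin 9 × Fin 9,
      isE (al (a + 2) (b + 2)) e = true → eqv f e = false → full (al (a + 2) (b + 2)) f.1 f.2 e = true := by
  decide +kernel

theorem tab9r : ∀ b : Fin 2, part (fun p => al 3 (b + 2) p && p != 3) 0 6 = true ∧
    ∃ e, full (fun p => al 3 (b + 2) p && p != 3) 0 6 e = true := by
  decide +kernel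

end Pool.Agent.MP_e46b50_co.H93
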